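import Mathlib
import Pool.Agent.Lib.MP_ab53bf_co.Rigid

set_option autoImplicit false

namespace Pool.Agent.Results.MP_ab53bf_co.Counter

open Pool.Agent.Lib.MP_ab53bf_co

/-- Two ordinary proper decagons with the same pattern and parallel corresponding edges, such that
for no labelling of the second one that makes corresponding edges parallel the first can be
deformed into the second through ordinary polygons with the same edge directions. -/
theorem result : ∃ x y : Fin 10 → ℝ × ℝ,
    Ordinary x ∧ Proper x ∧ Ordinary y ∧ Proper y ∧ SameLabelledPattern x y ∧ Parallel x y ∧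
    ∀ σ : Equiv.Perm (Fin 10), Dihedral σ → Parallel x (fun i => y (σ i)) →
      ¬ ∃ X : ℝ → Fin 10 → ℝ × ℝ, (∀ j, ContinuousOn (fun t => X t j) (Set.Icc (0 : ℝ) 1)) ∧
        X 0 = x ∧ X 1 = (fun i => y (σ i)) ∧
        ∀ t ∈ Set.Icc (0 : ℝ) 1, Ordinary (X t) ∧ Parallel x (X t) :=
  ⟨xA, xB, ordinary_A, proper_A, ordinary_B, proper_B, samePattern_AB, parallel_AB,
    fun _ hσ hP ⟨X, hc, h0, h1, h⟩ => no_deformation hσ hP X hc h0 h1 h⟩

end Pool.Agent.Results.MP_ab53bf_co.Counter
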